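import Pool.Agent.Helper26.VW.Cod

/-!
# Vector W, label: minors of sets of vectors
-/

set_option autoImplicit false

namespace Pool.Agent.Helper92.VS

open Matrix Finset Pool.Agent.Helper26.VW

variable {b : ℕ}

/-- the minor of the vectors `p` with the rows `I` -/
noncomputable def mn {m : ℕ} (p : Fin m → Fin b → ℝ) (I : Fin m → Fin b) : ℝ :=
  Matrix.det (Matrix.of fun k i => p k (I i))

/-- all `m × m` minors of vectors of `Q` are at most `τ` -/
def Sml (m : ℕ) (τ : ℝ) (Q : Set (Fin b → ℝ)) : Prop :=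
  ∀ (p : Fin m → Fin b → ℝ) (I : Fin m → Fin b), (∀ k, p k ∈ Q) → |mn p I| ≤ τ

theorem Sml.anti {m : ℕ} {τ : ℝ} {Q Q' : Set (Fin b → ℝ)} (h : Sml m τ Q) (hQ : Q' ⊆ Q) : Sml m τ Q' :=
  fun p I hp => h p I fun k => hQ (hp k)

theorem Sml.mono {m : ℕ} {τ τ' : ℝ} {Q : Set (Fin b → ℝ)} (h : Sml m τ Q) (hτ : τ ≤ τ') : Sml m τ' Q :=
  fun p I hp => (h p I hp).trans hτ

/-- a determinant with a small row -/
theorem det_row {m : ℕ} (W : Matrix (Fin m) (Fin m) ℝ) (ε : ℝ) (h1 : ∀ i j, |W i j| ≤ 1) (i0 : Fin m)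
    (h2 : ∀ j, |W i0 j| ≤ ε) : |W.det| ≤ m.factorial * ε := by
  have hε : 0 ≤ ε := (abs_nonneg _).trans (h2 i0)
  rw [Matrix.det_apply']
  refine (Finset.abs_sum_le_sum_abs _ _).trans ?_
  have key : ∀ σ : Equiv.Perm (Fin m), |((Equiv.Perm.sign σ : ℤ) : ℝ) * ∏ i, W (σ i) i| ≤ ε := by
    intro σ
    rw [abs_mul]
    have e1 : |((Equiv.Perm.sign σ : ℤ) : ℝ)| = 1 := by
      rcases Int.units_eq_one_or (Equiv.Perm.sign σ) with h | h <;> simp [h]
    rw [e1, one_mul, Finset.abs_prod, ← Finset.mul_prod_erase Finset.univ _ (Finset.mem_univ (σ⁻¹ i0))]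
    have e2 : |W (σ (σ⁻¹ i0)) (σ⁻¹ i0)| ≤ ε := by
      have e3 : σ (σ⁻¹ i0) = i0 := Equiv.apply_symm_apply σ i0
      rw [e3]
      exact h2 _
    have e3 : ∏ i ∈ Finset.univ.erase (σ⁻¹ i0), |W (σ i) i| ≤ 1 :=
      Finset.prod_le_one (fun i _ => abs_nonneg _) fun i _ => h1 _ _
    calc _ ≤ ε * 1 := mul_le_mul e2 e3 (Finset.prod_nonneg fun i _ => abs_nonneg _) hε
      _ = ε := mul_one _
  refine (Finset.sum_le_sum fun σ _ => key σ).trans (le_of_eq ?_)
  rw [Finset.sum_const, Finset.card_univ, Fintype.card_perm, Fintype.card_fin, nsmul_eq_mul]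

theorem mn_le {m : ℕ} (p : Fin m → Fin b → ℝ) (I : Fin m → Fin b) (h : ∀ k i, |p k i| ≤ 1) :
    |mn p I| ≤ m.factorial := by
  have h1 := Matrix.det_le (A := Matrix.of fun k i => p k (I i)) (abv := AbsoluteValue.abs) (x := 1)
    (fun i j => h i (I j))
  rw [Fintype.card_fin, nsmul_eq_mul, one_pow, mul_one] at h1
  exact h1

/-- expansion of a minor -/
theorem mn_sum {m : ℕ} {ι : Type} [Fintype ι] (c : Fin m → ι → ℝ) (x : Fin m → ι → Fin b → ℝ)
    (I : Fin m → Fin b) :
    mn (fun j => fun i => ∑ k, c j k * x j k i) I =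
      ∑ f : Fin m → ι, (∏ j, c j (f j)) * mn (fun j => x j (f j)) I := by
  classical
  have h1 : mn (fun j => fun i => ∑ k, c j k * x j k i) I =
      Matrix.detRowAlternating (fun j => ∑ k, c j k • (fun i => x j k (I i))) := by
    show Matrix.det _ = Matrix.det _
    congr 1
    funext j i
    simp [Finset.sum_apply]
  rw [h1]
  have h2 := (Matrix.detRowAlternating (n := Fin m) (R := ℝ)).toMultilinearMap.map_sum
    (fun (j : Fin m) (k : ι) => c j k • (fun i => x j k (I i)))
  refine h2.trans (Finset.sum_congr rfl fun f _ => ?_)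
  have h3 := (Matrix.detRowAlternating (n := Fin m) (R := ℝ)).toMultilinearMap.map_smul_univ
    (fun j => c j (f j)) (fun j => fun i => x j (f j) (I i))
  refine h3.trans ?_
  rw [smul_eq_mul]
  rfl

/-- every vector of `P` is a sum of `N` vectors of `Q` with coefficients `≤ K`, up to `ε` -/
def Box (N : ℕ) (K ε : ℝ) (P Q : Set (Fin b → ℝ)) : Prop :=
  ∀ v ∈ P, ∃ (t : Fin N → ℝ) (w : Fin N → Fin b → ℝ), (∀ k, |t k| ≤ K) ∧ (∀ k, w k ∈ Q) ∧
    ∀ i, |v i - ∑ k, t k * w k i| ≤ ε

/-- minors of sums -/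
theorem Box.sml {N : ℕ} {K ε : ℝ} {P Q : Set (Fin b → ℝ)} (h : Box N K ε P Q) (hK : 1 ≤ K) (hε : 0 ≤ ε)
    (hε1 : ε ≤ 1)
    (hQ : ∀ v ∈ Q, ∀ i, |v i| ≤ 1) {m : ℕ} {τ : ℝ} (hτ : 0 ≤ τ) (hs : Sml m τ Q) :
    Sml m ((N + 1) ^ m * (K ^ m * (τ + m.factorial * ε))) P := by
  classical
  intro p I hp
  choose t w ht hw he using fun k => h (p k) (hp k)
  set c : Fin m → Option (Fin N) → ℝ := fun j k => Option.elim k 1 (t j) with hc
  set x : Fin m → Option (Fin N) → Fin b → ℝ := fun j k =>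
    Option.elim k (fun i => p j i - ∑ k, t j k * w j k i) (w j) with hx
  have e1 : p = fun j => fun i => ∑ k, c j k * x j k i := by
    funext j i
    rw [Fintype.sum_option]
    show p j i = 1 * (p j i - ∑ k, t j k * w j k i) + ∑ k, t j k * w j k i
    ring
  rw [e1, mn_sum]
  refine (Finset.abs_sum_le_sum_abs _ _).trans ?_
  have key : ∀ f : Fin m → Option (Fin N), |(∏ j, c j (f j)) * mn (fun j => x j (f j)) I| ≤
      K ^ m * (τ + m.factorial * ε) := by
    intro f
    rw [abs_mul]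
    have h1 : |∏ j, c j (f j)| ≤ K ^ m := by
      rw [Finset.abs_prod]
      refine (Finset.prod_le_prod (g := fun _ => K) (fun _ _ => abs_nonneg _) fun j _ => ?_).trans ?_
      · cases hf : f j with
        | none =>
          show |(1 : ℝ)| ≤ K
          rw [abs_one]
          exact hK
        | some k => exact ht j k
      · rw [Finset.prod_const, Finset.card_univ, Fintype.card_fin]
    have h2 : |mn (fun j => x j (f j)) I| ≤ τ + m.factorial * ε := by
      by_cases h3 : ∃ j, f j = none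
      · obtain ⟨j, hj⟩ := h3
        have h4 := det_row (Matrix.of fun k i => x k (f k) (I i)) ε (by
          intro k i
          show |x k (f k) (I i)| ≤ 1
          cases hf : f k with
          | none => exact (he k (I i)).trans hε1
          | some k' => exact hQ _ (hw k k') (I i)) j (by
          intro i
          show |x j (f j) (I i)| ≤ ε
          rw [hj]
          exact he j (I i))
        have h5 : |mn (fun j => x j (f j)) I| ≤ m.factorial * ε := h4
        linarith
      · push Not at h3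
        have h4 : ∀ j, x j (f j) ∈ Q := by
          intro j
          cases hf : f j with
          | none => exact absurd hf (h3 j)
          | some k => exact hw j k
        have h5 := hs (fun j => x j (f j)) I h4
        have h6 : 0 ≤ m.factorial * ε := by positivity
        linarith
    exact mul_le_mul h1 h2 (abs_nonneg _) (by positivity)
  refine (Finset.sum_le_sum fun f _ => key f).trans (le_of_eq ?_)
  rw [Finset.sum_const, Finset.card_univ, Fintype.card_fun, Fintype.card_option, Fintype.card_fin,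
    Fintype.card_fin, nsmul_eq_mul]
  push_cast
  ring

/-! ### pivots -/

/-- nearly maximal pivots -/
theorem pivots {m : ℕ} {δ : ℝ} {Q : Set (Fin b → ℝ)} (hQ : ∀ v ∈ Q, ∀ i, |v i| ≤ 1) (h : ¬ Sml m δ Q)
    (hδ : 0 ≤ δ) :
    ∃ (p : Fin m → Fin b → ℝ) (I : Fin m → Fin b), (∀ k, p k ∈ Q) ∧ δ < |mn p I| ∧
      ∀ (p' : Fin m → Fin b → ℝ) (I' : Fin m → Fin b), (∀ k, p' k ∈ Q) → |mn p' I'| ≤ 2 * |mn p I| := by
  have h1 : ∃ (p : Fin m → Fin b → ℝ) (I : Fin m → Fin b), (∀ k, p k ∈ Q) ∧ δ < |mn p I| := by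
    by_contra hc
    push Not at hc
    exact h fun p I hp => hc p I hp
  set S : Set ℝ := {d | ∃ (p : Fin m → Fin b → ℝ) (I : Fin m → Fin b), (∀ k, p k ∈ Q) ∧ d = |mn p I|} with hS
  obtain ⟨p0, I0, hp0, hd0⟩ := h1
  have hb : BddAbove S := ⟨m.factorial, by
    rintro d ⟨p, I, hp, rfl⟩
    exact mn_le p I fun k i => hQ _ (hp k) i⟩
  have h0 : |mn p0 I0| ∈ S := ⟨p0, I0, hp0, rfl⟩
  have h2 : |mn p0 I0| ≤ sSup S := le_csSup hb h0
  have h3 : max δ (sSup S / 2) < sSup S := by
    rw [max_lt_iff]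
    constructor <;> linarith
  obtain ⟨d, ⟨p, I, hp, rfl⟩, hd⟩ := exists_lt_of_lt_csSup (s := S) ⟨_, h0⟩ h3
  refine ⟨p, I, hp, (le_max_left _ _).trans_lt hd, fun p' I' hp' => ?_⟩
  have h4 := le_csSup hb (show |mn p' I'| ∈ S from ⟨p', I', hp', rfl⟩)
  have h5 := (le_max_right _ _).trans_lt hd
  linarith

/-- the matrix of the pivots: columns `p k`, rows `I i` -/
noncomputable def Pv {m : ℕ} (p : Fin m → Fin b → ℝ) (I : Fin m → Fin b) : Mt m := Matrix.of fun i k => p k (I i)

theorem Pv_det {m : ℕ} (p : Fin m → Fin b → ℝ) (I : Fin m → Fin b) : (Pv p I).det = mn p I := by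
  rw [mn, ← Matrix.det_transpose]
  rfl

/-- the graph matrix `p p_I^(-1)` -/
noncomputable def gr {m : ℕ} (p : Fin m → Fin b → ℝ) (I : Fin m → Fin b) (i : Fin b) (j : Fin m) : ℝ :=
  ∑ k, p k i * (Pv p I)⁻¹ k j

theorem gr_bd {m : ℕ} (p : Fin m → Fin b → ℝ) (I : Fin m → Fin b) (h0 : mn p I ≠ 0)
    (h : ∀ I' : Fin m → Fin b, |mn p I'| ≤ 2 * |mn p I|) (i : Fin b) (j : Fin m) : |gr p I i j| ≤ 2 := by
  have hd : (Pv p I)ᵀ.det ≠ 0 := by
    rw [Matrix.det_transpose, Pv_det]
    exact h0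
  have h1 := coef (Pv p I)ᵀ hd (fun k => p k i) 2 (by
    intro j
    have e : ((Pv p I)ᵀ.updateCol j fun k => p k i).det = mn p (Function.update I j i) := by
      rw [mn]
      congr 1
      funext k i'
      rw [Matrix.updateCol_apply]
      show _ = p k (Function.update I j i i')
      by_cases h2 : i' = j
      · rw [if_pos h2, h2, Function.update_self]
      · rw [if_neg h2, Function.update_of_ne h2]
        rfl
    rw [e, Matrix.det_transpose, Pv_det]
    exact h _) j
  have e2 : ((Pv p I)ᵀ⁻¹ *ᵥ fun k => p k i) j = gr p I i j := by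
    rw [gr, ← Matrix.transpose_nonsing_inv, Matrix.mulVec, dotProduct]
    refine Finset.sum_congr rfl fun k _ => ?_
    rw [Matrix.transpose_apply, mul_comm]
  rw [← e2]
  exact h1

/-- a vector whose minors with the pivots are small -/
theorem gr_near {m : ℕ} (p : Fin m → Fin b → ℝ) (I : Fin m → Fin b) (h0 : mn p I ≠ 0) (v : Fin b → ℝ)
    (τ : ℝ) (i : Fin b)
    (h : |mn (Fin.snoc p v : Fin (m + 1) → Fin b → ℝ) (Fin.snoc I i : Fin (m + 1) → Fin b)| ≤ τ) :
    |v i - ∑ j, gr p I i j * v (I j)| ≤ τ / |mn p I| := by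
  have hd : (Pv p I).det ≠ 0 := by
    rw [Pv_det]
    exact h0
  have hu : IsUnit (Pv p I).det := isUnit_iff_ne_zero.2 hd
  let _ := Matrix.invertibleOfIsUnitDet _ hu
  have e1 : mn (Fin.snoc p v : Fin (m + 1) → Fin b → ℝ) (Fin.snoc I i : Fin (m + 1) → Fin b) =
      (Matrix.fromBlocks (Pv p I) (Matrix.of fun i' (_ : Fin 1) => v (I i'))
        (Matrix.of fun (_ : Fin 1) k => p k i) (Matrix.of fun (_ _ : Fin 1) => v i)).det := by
    rw [mn, ← Matrix.det_transpose, ← Matrix.det_submatrix_equiv_self (finSumFinEquiv (m := m) (n := 1))]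
    congr 1
    ext x y
    rcases x with x | x <;> rcases y with y | y
    · show (Fin.snoc p v : Fin (m + 1) → Fin b → ℝ) (Fin.castAdd 1 y)
        ((Fin.snoc I i : Fin (m + 1) → Fin b) (Fin.castAdd 1 x)) = p y (I x)
      have a1 : (Fin.snoc p v : Fin (m + 1) → Fin b → ℝ) (Fin.castAdd 1 y) = p y :=
        Fin.snoc_castSucc (α := fun _ => Fin b → ℝ) v p y
      have a2 : (Fin.snoc I i : Fin (m + 1) → Fin b) (Fin.castAdd 1 x) = I x :=
        Fin.snoc_castSucc (α := fun _ => Fin b) i I x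
      rw [a1, a2]
    · show (Fin.snoc p v : Fin (m + 1) → Fin b → ℝ) (Fin.natAdd m y)
        ((Fin.snoc I i : Fin (m + 1) → Fin b) (Fin.castAdd 1 x)) = v (I x)
      have a1 : (Fin.snoc p v : Fin (m + 1) → Fin b → ℝ) (Fin.natAdd m y) = v := by
        have : Fin.natAdd m y = Fin.last m := by
          ext
          simp
        rw [this]
        exact Fin.snoc_last (α := fun _ => Fin b → ℝ) v p
      have a2 : (Fin.snoc I i : Fin (m + 1) → Fin b) (Fin.castAdd 1 x) = I x :=
        Fin.snoc_castSucc (α := fun _ => Fin b) i I x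
      rw [a1, a2]
    · show (Fin.snoc p v : Fin (m + 1) → Fin b → ℝ) (Fin.castAdd 1 y)
        ((Fin.snoc I i : Fin (m + 1) → Fin b) (Fin.natAdd m x)) = p y i
      have a1 : (Fin.snoc p v : Fin (m + 1) → Fin b → ℝ) (Fin.castAdd 1 y) = p y :=
        Fin.snoc_castSucc (α := fun _ => Fin b → ℝ) v p y
      have a2 : (Fin.snoc I i : Fin (m + 1) → Fin b) (Fin.natAdd m x) = i := by
        have : Fin.natAdd m x = Fin.last m := by
          ext
          simp
        rw [this]
        exact Fin.snoc_last (α := fun _ => Fin b) i I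
      rw [a1, a2]
    · show (Fin.snoc p v : Fin (m + 1) → Fin b → ℝ) (Fin.natAdd m y)
        ((Fin.snoc I i : Fin (m + 1) → Fin b) (Fin.natAdd m x)) = v i
      have a1 : (Fin.snoc p v : Fin (m + 1) → Fin b → ℝ) (Fin.natAdd m y) = v := by
        have : Fin.natAdd m y = Fin.last m := by
          ext
          simp
        rw [this]
        exact Fin.snoc_last (α := fun _ => Fin b → ℝ) v p
      have a2 : (Fin.snoc I i : Fin (m + 1) → Fin b) (Fin.natAdd m x) = i := by
        have : Fin.natAdd m x = Fin.last m := by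
          ext
          simp
        rw [this]
        exact Fin.snoc_last (α := fun _ => Fin b) i I
      rw [a1, a2]
  rw [e1, Matrix.det_fromBlocks₁₁, abs_mul, Pv_det, Matrix.det_fin_one] at h
  have e2 : ((Matrix.of fun (_ _ : Fin 1) => v i) - (Matrix.of fun (_ : Fin 1) k => p k i) * ⅟(Pv p I) *
      (Matrix.of fun i' (_ : Fin 1) => v (I i'))) 0 0 = v i - ∑ j, gr p I i j * v (I j) := by
    rw [Matrix.sub_apply, Matrix.mul_apply]
    congr 1
  rw [e2] at h
  rw [le_div_iff₀ (abs_pos.2 h0), mul_comm]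
  exact h

end Pool.Agent.Helper92.VS
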