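import Pool.Agent.Helper92.VS.Min

/-!
# Vector W, label: the code of the hulls of one star
-/

set_option autoImplicit false

namespace Pool.Agent.Helper92.VS

open Matrix Finset Pool.Agent.Helper26.VW

variable {b : ℕ}

/-- all vectors of the bodies of the levels `x ≤ l ≤ u` -/
def UB (B : ℕ → Set (Fin b → ℝ)) (x u : ℕ) : Set (Fin b → ℝ) := {v | ∃ l, x ≤ l ∧ l ≤ u ∧ v ∈ B l}

theorem UB_mono (B : ℕ → Set (Fin b → ℝ)) {x x' u u' : ℕ} (hx : x' ≤ x) (hu : u ≤ u') : UB B x u ⊆ UB B x' u' := by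
  rintro v ⟨l, h1, h2, h3⟩
  exact ⟨l, hx.trans h1, h2.trans hu, h3⟩

/-- members of `Q` and sums of `r` of them with coefficients at most `1` -/
def HB (r : ℕ) (Q : Set (Fin b → ℝ)) : Set (Fin b → ℝ) :=
  {v | v ∈ Q ∨ ∃ (w : Fin r → Fin b → ℝ) (c : Fin r → ℝ), (∀ k, |c k| ≤ 1) ∧ (∀ k, w k ∈ Q) ∧
    ∀ i, v i = ∑ k, c k * w k i}

theorem HB_mono {r : ℕ} {Q Q' : Set (Fin b → ℝ)} (h : Q ⊆ Q') : HB r Q ⊆ HB r Q' := by
  rintro v (hv | ⟨w, c, h1, h2, h3⟩)
  · exact Or.inl (h hv)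
  · exact Or.inr ⟨w, c, h1, fun k => h (h2 k), h3⟩

theorem HB_rep {r : ℕ} (hr : 0 < r) {Q : Set (Fin b → ℝ)} {v : Fin b → ℝ} (h : v ∈ HB r Q) :
    ∃ (w : Fin r → Fin b → ℝ) (c : Fin r → ℝ), (∀ k, |c k| ≤ 1) ∧ (∀ k, w k ∈ Q) ∧
      ∀ i, v i = ∑ k, c k * w k i := by
  rcases h with h | h
  · refine ⟨fun _ => v, Pi.single ⟨0, hr⟩ 1, ?_, fun _ => h, fun i => ?_⟩
    · intro k
      by_cases hk : k = ⟨0, hr⟩
      · rw [hk, Pi.single_eq_same, abs_one]
      · rw [Pi.single_eq_of_ne hk, abs_zero]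
        norm_num
    · rw [← Finset.sum_mul, Finset.sum_pi_single']
      simp
  · exact h

theorem HB_bd {r : ℕ} {Q : Set (Fin b → ℝ)} (hQ : ∀ v ∈ Q, ∀ i, |v i| ≤ 1) {v : Fin b → ℝ} (h : v ∈ HB r Q)
    (i : Fin b) : |v i| ≤ r + 1 := by
  have hr0 : (0 : ℝ) ≤ r := Nat.cast_nonneg r
  rcases h with h | ⟨w, c, h1, h2, h3⟩
  · have := hQ v h i
    linarith
  · rw [h3]
    refine (Finset.abs_sum_le_sum_abs _ _).trans ?_
    have : ∑ k, |c k * w k i| ≤ ∑ _k : Fin r, (1 : ℝ) := Finset.sum_le_sum fun k _ => by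
      rw [abs_mul]
      have e1 := h1 k
      have e2 := hQ _ (h2 k) i
      have e3 := abs_nonneg (c k)
      have e4 := abs_nonneg (w k i)
      nlinarith
    rw [Finset.sum_const, Finset.card_univ, Fintype.card_fin, nsmul_eq_mul, mul_one] at this
    linarith

/-- the code of one side -/
structure SC (b r : ℕ) where
  A : Fin b → Fin r → ℤ
  cL : ℕ → Cd r
  cR : ℕ → Cd r

/-- a decoded frame -/
noncomputable def fr {r : ℕ} (M : ℕ) (A : Fin b → Fin r → ℤ) (D : Mt r) (k : Fin r) : Fin b → ℝ :=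
  fun i => ∑ j, (A i j : ℝ) / 2 ^ M * D j k

/-- `F` covers `Q` up to `ε` and consists of sums of members of `Q` up to `ε` -/
structure Cov {r : ℕ} (Q : Set (Fin b → ℝ)) (F : Fin r → Fin b → ℝ) (ε : ℝ) : Prop where
  cov : ∀ v ∈ Q, ∃ y : Fin r → ℝ, (∀ k, |y k| ≤ 8) ∧ ∀ i, |v i - ∑ k, y k * F k i| ≤ ε
  rep : ∀ k, ∃ (t : Fin r → Fin r → ℝ) (w : Fin r → Fin r → Fin b → ℝ), (∀ j m, |t j m| ≤ 2) ∧
    (∀ j m, w j m ∈ Q) ∧ ∀ i, |F k i - ∑ j, ∑ m, t j m * w j m i| ≤ ε

/-- the constant of the errors -/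
noncomputable def Ce (r : ℕ) : ℝ := 32 * (r + 1) ^ 4

/-- the constant of the costs -/
noncomputable def Cc (r : ℕ) (δ : ℝ) : ℝ :=
  CC r * (Real.logb 2 (r.factorial * (r + 1) ^ r) - r * Real.logb 2 (δ / (r.factorial + 1)))

theorem fr_near {r : ℕ} {p : Fin r → Fin b → ℝ} {I : Fin r → Fin b} {M : ℕ} {Q : Set (Fin b → ℝ)}
    {e : ℝ} (hQ : ∀ v ∈ Q, ∀ i, |v i| ≤ 1)
    (hg : ∀ v ∈ Q, ∀ i, |v i - ∑ j, gr p I i j * v (I j)| ≤ e)
    {Qr : Set (Fin r → ℝ)} (hQr : Qr = {w | ∃ v ∈ HB r Q, w = fun j => v (I j)})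
    {W D : Mt r} (hF : Frm Qr W D)
    (A : Fin b → Fin r → ℤ) (hA : ∀ i j, |gr p I i j - (A i j : ℝ) / 2 ^ M| ≤ 1 / 2 ^ M) :
    Cov Q (fr M A D) (Ce r * (e + 1 / 2 ^ M)) := by
  have hM : (0 : ℝ) < 1 / 2 ^ M := by positivity
  have hr0 : (0 : ℝ) ≤ r := Nat.cast_nonneg r
  have hWb : Bdd (r + 1) W := by
    intro j k
    have h1 := hF.co k
    rw [hQr] at h1
    obtain ⟨v, hv, h2⟩ := h1
    have h3 := congrFun h2 j
    show |W j k| ≤ _
    rw [show W j k = v (I j) from h3]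
    exact HB_bd hQ hv _
  obtain ⟨E, hD, hE⟩ := hF.ap
  have hDb : Bdd (r * ((r + 1) * 2)) D := by
    rw [hD]
    exact Bdd.mul (by positivity) hWb (pert_bd E hE)
  constructor
  · intro v hv
    refine ⟨D⁻¹ *ᵥ (fun j => v (I j)), fun k => ?_, fun i => ?_⟩
    · exact hF.mem _ (by rw [hQr]; exact ⟨v, Or.inl hv, rfl⟩) k
    · set y := D⁻¹ *ᵥ (fun j => v (I j)) with hy
      have hy8 : ∀ k, |y k| ≤ 8 := fun k =>
        hF.mem _ (by rw [hQr]; exact ⟨v, Or.inl hv, rfl⟩) k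
      have h1 : ∀ j, v (I j) = ∑ k, D j k * y k := by
        intro j
        have : D *ᵥ y = fun j => v (I j) := by
          rw [hy, Matrix.mulVec_mulVec, Matrix.mul_nonsing_inv _ (isUnit_iff_ne_zero.2 hF.detB),
            Matrix.one_mulVec]
        exact (congrFun this j).symm
      have h2 : ∑ j, gr p I i j * v (I j) - ∑ k, y k * fr M A D k i =
          ∑ k, ∑ j, y k * ((gr p I i j - (A i j : ℝ) / 2 ^ M) * D j k) := by
        have e1 : ∑ j, gr p I i j * v (I j) = ∑ k, ∑ j, y k * (gr p I i j * D j k) := by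
          rw [Finset.sum_comm]
          refine Finset.sum_congr rfl fun j _ => ?_
          rw [h1 j, Finset.mul_sum]
          refine Finset.sum_congr rfl fun k _ => ?_
          ring
        rw [e1, ← Finset.sum_sub_distrib]
        refine Finset.sum_congr rfl fun k _ => ?_
        rw [fr, Finset.mul_sum, ← Finset.sum_sub_distrib]
        refine Finset.sum_congr rfl fun j _ => ?_
        ring
      have h3 : |∑ j, gr p I i j * v (I j) - ∑ k, y k * fr M A D k i| ≤
          ∑ _k : Fin r, ∑ _j : Fin r, (8 : ℝ) * (1 / 2 ^ M * ((r : ℝ) * (((r : ℝ) + 1) * 2))) := by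
        rw [h2]
        refine (Finset.abs_sum_le_sum_abs _ _).trans (Finset.sum_le_sum fun k _ => ?_)
        refine (Finset.abs_sum_le_sum_abs _ _).trans (Finset.sum_le_sum fun j _ => ?_)
        rw [abs_mul, abs_mul]
        exact mul_le_mul (hy8 k) (mul_le_mul (hA i j) (hDb j k) (abs_nonneg _) hM.le)
          (by positivity) (by norm_num)
      simp only [Finset.sum_const, Finset.card_univ, Fintype.card_fin, nsmul_eq_mul] at h3
      have h4 := hg v hv i
      have h5 : |v i - ∑ k, y k * fr M A D k i| ≤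
          |v i - ∑ j, gr p I i j * v (I j)| + |∑ j, gr p I i j * v (I j) - ∑ k, y k * fr M A D k i| := by
        have := abs_add_le (v i - ∑ j, gr p I i j * v (I j))
          (∑ j, gr p I i j * v (I j) - ∑ k, y k * fr M A D k i)
        rwa [sub_add_sub_cancel] at this
      have h6 : (r : ℝ) * (r * (8 * (1 / 2 ^ M * (r * ((r + 1) * 2))))) ≤ Ce r * (1 / 2 ^ M) := by
        rw [Ce]
        have e2 : (r : ℝ) * (r * (8 * (1 / 2 ^ M * (r * ((r + 1) * 2))))) =
          16 * (r ^ 3 * (r + 1)) * (1 / 2 ^ M) := by ring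
        rw [e2]
        apply mul_le_mul_of_nonneg_right _ hM.le
        have e3 : (r : ℝ) ^ 3 ≤ (r + 1) ^ 3 := pow_le_pow_left₀ hr0 (by linarith) 3
        have e4 : (r : ℝ) ^ 3 * (r + 1) ≤ (r + 1) ^ 3 * (r + 1) := mul_le_mul_of_nonneg_right e3 (by linarith)
        have e5 : ((r : ℝ) + 1) ^ 3 * (r + 1) = (r + 1) ^ 4 := by ring
        have e6 : (0 : ℝ) ≤ (r + 1) ^ 4 := by positivity
        linarith
      have h7 : e ≤ Ce r * e := by
        have he' : 0 ≤ e := (abs_nonneg _).trans h4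
        have : 1 ≤ Ce r := by
          rw [Ce]
          have : (1 : ℝ) ≤ (r + 1) ^ 4 := one_le_pow₀ (by linarith)
          linarith
        nlinarith
      rw [mul_add]
      linarith
  · intro k
    have hr : 0 < r := k.pos
    have h1 : ∀ j, ∃ (w : Fin r → Fin b → ℝ) (c : Fin r → ℝ), (∀ m, |c m| ≤ 1) ∧ (∀ m, w m ∈ Q) ∧
        ∀ j', W j' j = ∑ m, c m * w m (I j') := by
      intro j
      have h1 := hF.co j
      rw [hQr] at h1
      obtain ⟨v, hv, h2⟩ := h1
      obtain ⟨w, c, e1, e2, e3⟩ := HB_rep hr hv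
      refine ⟨w, c, e1, e2, fun j' => ?_⟩
      rw [← e3]
      exact congrFun h2 j'
    choose w c hc hw hWw using h1
    have hEb := pert_bd E hE
    refine ⟨fun j m => (1 + E) j k * c j m, w, ?_, hw, fun i => ?_⟩
    · intro j m
      rw [abs_mul]
      have e1 := hEb j k
      have e2 := hc j m
      have e3 := abs_nonneg ((1 + E) j k)
      have e4 := abs_nonneg (c j m)
      nlinarith
    · have e1 : fr M A D k i = ∑ j, ∑ m, (1 + E) j k * c j m * ∑ j', (A i j' : ℝ) / 2 ^ M * w j m (I j') := by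
        rw [fr]
        have f1 : ∀ j', D j' k = ∑ j, ∑ m, (1 + E) j k * c j m * w j m (I j') := by
          intro j'
          rw [hD, Matrix.mul_apply]
          refine Finset.sum_congr rfl fun j _ => ?_
          rw [hWw j j', Finset.sum_mul]
          refine Finset.sum_congr rfl fun m _ => ?_
          ring
        simp only [f1, Finset.mul_sum]
        rw [Finset.sum_comm]
        refine Finset.sum_congr rfl fun j _ => ?_
        rw [Finset.sum_comm]
        refine Finset.sum_congr rfl fun m _ => ?_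
        refine Finset.sum_congr rfl fun j' _ => ?_
        ring
      have e2 : fr M A D k i - ∑ j, ∑ m, (1 + E) j k * c j m * w j m i =
          ∑ j, ∑ m, (1 + E) j k * c j m * (∑ j', (A i j' : ℝ) / 2 ^ M * w j m (I j') - w j m i) := by
        rw [e1, ← Finset.sum_sub_distrib]
        refine Finset.sum_congr rfl fun j _ => ?_
        rw [← Finset.sum_sub_distrib]
        refine Finset.sum_congr rfl fun m _ => ?_
        ring
      show |fr M A D k i - ∑ j, ∑ m, (1 + E) j k * c j m * w j m i| ≤ _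
      rw [e2]
      have e3 : ∀ j m, |∑ j', (A i j' : ℝ) / 2 ^ M * w j m (I j') - w j m i| ≤ r * (1 / 2 ^ M) + e := by
        intro j m
        have f1 := hg _ (hw j m) i
        have f2 : |∑ j', (A i j' : ℝ) / 2 ^ M * w j m (I j') - ∑ j', gr p I i j' * w j m (I j')| ≤
            ∑ _j' : Fin r, 1 / 2 ^ M * 1 := by
          rw [← Finset.sum_sub_distrib]
          refine (Finset.abs_sum_le_sum_abs _ _).trans (Finset.sum_le_sum fun j' _ => ?_)
          rw [← sub_mul, abs_mul, abs_sub_comm]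
          exact mul_le_mul (hA i j') (hQ _ (hw j m) _) (abs_nonneg _) hM.le
        rw [Finset.sum_const, Finset.card_univ, Fintype.card_fin, nsmul_eq_mul, mul_one] at f2
        have f3 := abs_add_le (∑ j', (A i j' : ℝ) / 2 ^ M * w j m (I j') - ∑ j', gr p I i j' * w j m (I j'))
          (∑ j', gr p I i j' * w j m (I j') - w j m i)
        rw [sub_add_sub_cancel, abs_sub_comm (∑ j', gr p I i j' * w j m (I j')) (w j m i)] at f3
        linarith
      have e4 : 0 ≤ e := (abs_nonneg _).trans (hg _ (hw k k) i)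
      have e5 : |∑ j, ∑ m, (1 + E) j k * c j m * (∑ j', (A i j' : ℝ) / 2 ^ M * w j m (I j') - w j m i)| ≤
          ∑ _j : Fin r, ∑ _m : Fin r, 2 * (r * (1 / 2 ^ M) + e) := by
        refine (Finset.abs_sum_le_sum_abs _ _).trans (Finset.sum_le_sum fun j _ => ?_)
        refine (Finset.abs_sum_le_sum_abs _ _).trans (Finset.sum_le_sum fun m _ => ?_)
        rw [abs_mul]
        refine mul_le_mul ?_ (e3 j m) (abs_nonneg _) (by norm_num)
        rw [abs_mul]
        have e1 := hEb j k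
        have e2 := hc j m
        have e3 := abs_nonneg ((1 + E) j k)
        have e4 := abs_nonneg (c j m)
        nlinarith
      refine e5.trans ?_
      simp only [Finset.sum_const, Finset.card_univ, Fintype.card_fin, nsmul_eq_mul]
      have e6 : (r : ℝ) * (r * (2 * (r * (1 / 2 ^ M) + e))) = 2 * r ^ 3 * (1 / 2 ^ M) + 2 * r ^ 2 * e := by ring
      rw [e6, mul_add]
      have g1 : (2 : ℝ) * r ^ 3 ≤ Ce r := by
        rw [Ce]
        have e3 : (r : ℝ) ^ 3 ≤ (r + 1) ^ 3 := pow_le_pow_left₀ hr0 (by linarith) 3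
        have e4 : ((r : ℝ) + 1) ^ 3 ≤ (r + 1) ^ 4 := pow_le_pow_right₀ (by linarith) (by norm_num)
        have e6 : (0 : ℝ) ≤ (r + 1) ^ 4 := by positivity
        linarith
      have g2 : (2 : ℝ) * r ^ 2 ≤ Ce r := by
        rw [Ce]
        have e3 : (r : ℝ) ^ 2 ≤ (r + 1) ^ 2 := pow_le_pow_left₀ hr0 (by linarith) 2
        have e4 : ((r : ℝ) + 1) ^ 2 ≤ (r + 1) ^ 4 := pow_le_pow_right₀ (by linarith) (by norm_num)
        have e6 : (0 : ℝ) ≤ (r + 1) ^ 4 := by positivity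
        linarith
      have g3 := mul_le_mul_of_nonneg_right g1 hM.le
      have g4 := mul_le_mul_of_nonneg_right g2 e4
      linarith

/-- **THE CODE OF ONE SIDE** -/
theorem side (B : ℕ → Set (Fin b → ℝ)) (r x1 x0 u0 u1 M : ℕ) (δ τ : ℝ) (hx : x1 ≤ x0) (hu : u0 ≤ u1)
    (hδ : 0 < δ) (hb : ∀ v ∈ UB B x1 u1, ∀ i, |v i| ≤ 1) (h2 : ¬ Sml r δ (UB B x0 u0))
    (h3 : Sml (r + 1) τ (UB B x1 u1)) :
    ∃ s : SC b r,
      (∀ N, N ≤ x0 - x1 → Cov (UB B (x0 - N) u0) (fr M s.A (dec (δ / (r.factorial + 1)) s.cL (N + 1)))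
        (Ce r * (τ / δ + 1 / 2 ^ M))) ∧
      (∀ N, N ≤ u1 - u0 → Cov (UB B x0 (u0 + N)) (fr M s.A (dec (δ / (r.factorial + 1)) s.cR (N + 1)))
        (Ce r * (τ / δ + 1 / 2 ^ M))) ∧
      (∀ n, ∑ N ∈ range n, cst (s.cL N) ≤ Cc r δ) ∧ (∀ n, ∑ N ∈ range n, cst (s.cR N) ≤ Cc r δ) ∧
      ∃ (p : Fin r → Fin b → ℝ) (I : Fin r → Fin b), (∀ k, p k ∈ UB B x0 u0) ∧ δ < |mn p I| ∧
        (∀ (p' : Fin r → Fin b → ℝ) (I' : Fin r → Fin b), (∀ k, p' k ∈ UB B x0 u0) →
          |mn p' I'| ≤ 2 * |mn p I|) ∧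
        ∀ i j, s.A i j = round (2 ^ M * gr p I i j) := by
  have hsub : UB B x0 u0 ⊆ UB B x1 u1 := UB_mono B hx hu
  obtain ⟨p, I, hp, hd, hmax⟩ := pivots (fun v hv => hb v (hsub hv)) h2 hδ.le
  have h0 : mn p I ≠ 0 := by
    intro h
    rw [h, abs_zero] at hd
    linarith
  have hpp : 0 < |mn p I| := abs_pos.2 h0
  -- near the graph
  have hg : ∀ v ∈ UB B x1 u1, ∀ i, |v i - ∑ j, gr p I i j * v (I j)| ≤ τ / δ := by
    intro v hv i
    have h4 := h3 (Fin.snoc p v : Fin (r + 1) → Fin b → ℝ) (Fin.snoc I i : Fin (r + 1) → Fin b) (by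
      intro k
      refine Fin.lastCases ?_ (fun k => ?_) k
      · rw [Fin.snoc_last (α := fun _ => Fin b → ℝ) v p]
        exact hv
      · rw [Fin.snoc_castSucc (α := fun _ => Fin b → ℝ) v p k]
        exact hsub (hp k))
    have hτ : 0 ≤ τ := (abs_nonneg _).trans h4
    refine (gr_near p I h0 v τ i h4).trans ?_
    exact div_le_div_of_nonneg_left hτ hδ hd.le
  -- the rounded matrix
  set A : Fin b → Fin r → ℤ := fun i j => round (2 ^ M * gr p I i j) with hA
  have hAr : ∀ i j, |gr p I i j - (A i j : ℝ) / 2 ^ M| ≤ 1 / 2 ^ M := by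
    intro i j
    have hM : (0 : ℝ) < 2 ^ M := by positivity
    have e1 : gr p I i j - (A i j : ℝ) / 2 ^ M = (2 ^ M * gr p I i j - (A i j : ℝ)) / 2 ^ M := by
      field_simp
    rw [e1, abs_div, abs_of_pos hM]
    apply div_le_div_of_nonneg_right _ hM.le
    have := abs_sub_round ((2 : ℝ) ^ M * gr p I i j)
    show |2 ^ M * gr p I i j - (round (2 ^ M * gr p I i j) : ℝ)| ≤ 1
    linarith
  -- the families
  set δ' : ℝ := δ / (r.factorial + 1) with hδ'
  have hδ'0 : 0 < δ' := by positivity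
  have hPd : (Pv p I).det ≠ 0 := by
    rw [Pv_det]
    exact h0
  have hPb : Bdd 1 (Pv p I) := fun i k => hb _ (hsub (hp k)) _
  have hPi := inv_bd (C := 1) le_rfl hPb
  have bod : ∀ Q : Set (Fin b → ℝ), UB B x0 u0 ⊆ Q → (∀ v ∈ Q, ∀ i, |v i| ≤ 1) →
      Bod δ' (r.factorial * (r + 1) ^ r) {w : Fin r → ℝ | ∃ v ∈ HB r Q, w = fun j => v (I j)} := by
    intro Q hQ hQb
    constructor
    · intro k
      refine ⟨fun i => ∑ j, (δ' * (Pv p I)⁻¹ j k) * p j i, Or.inr ⟨p, fun j => δ' * (Pv p I)⁻¹ j k,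
        fun j => ?_, fun j => hQ (hp j), fun i => rfl⟩, ?_⟩
      · rw [abs_mul, abs_of_pos hδ'0]
        have e1 := hPi j k
        rw [Pv_det, one_pow, mul_one] at e1
        have e2 : |mn p I|⁻¹ ≤ δ⁻¹ := by
          rw [inv_le_inv₀ hpp hδ]
          exact hd.le
        have e3 : |(Pv p I)⁻¹ j k| ≤ r.factorial * δ⁻¹ :=
          e1.trans (mul_le_mul_of_nonneg_left e2 (by positivity))
        calc δ' * |(Pv p I)⁻¹ j k| ≤ δ' * (r.factorial * δ⁻¹) := mul_le_mul_of_nonneg_left e3 hδ'0.le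
          _ = r.factorial / (r.factorial + 1) := by
            rw [hδ']
            field_simp
          _ ≤ 1 := by
            rw [div_le_one (by positivity)]
            linarith
      · funext i
        have e1 : ∑ j, (δ' * (Pv p I)⁻¹ j k) * p j (I i) = δ' * ((Pv p I) * (Pv p I)⁻¹) i k := by
          rw [Matrix.mul_apply, Finset.mul_sum]
          refine Finset.sum_congr rfl fun j _ => ?_
          show _ = δ' * (p j (I i) * (Pv p I)⁻¹ j k)
          ring
        refine Eq.trans ?_ e1.symm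
        rw [Matrix.mul_nonsing_inv _ (isUnit_iff_ne_zero.2 hPd), Matrix.one_apply]
        split_ifs <;> simp
    · intro W hW
      have : Bdd (r + 1) W := by
        intro i k
        obtain ⟨v, hv, h4⟩ := hW k
        rw [show W i k = v (I i) from congrFun h4 i]
        exact HB_bd hQb hv _
      exact det_bd this
  have fam : ∀ Q : ℕ → Set (Fin b → ℝ), Monotone Q → (∀ N, UB B x0 u0 ⊆ Q N) → (∀ N, Q N ⊆ UB B x1 u1) →
      ∃ c : ℕ → Cd r, (∀ N, Cov (Q N) (fr M A (dec δ' c (N + 1))) (Ce r * (τ / δ + 1 / 2 ^ M))) ∧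
        ∀ n, ∑ N ∈ range n, cst (c N) ≤ Cc r δ := by
    intro Q hm hQ1 hQ2
    have hbb : ∀ N, ∀ v ∈ Q N, ∀ i, |v i| ≤ 1 := fun N v hv => hb v (hQ2 N hv)
    obtain ⟨c, W, h4, h5⟩ := code hδ'0 (fun N => {w : Fin r → ℝ | ∃ v ∈ HB r (Q N), w = fun j => v (I j)})
      (by
        rintro N N' hN w ⟨v, hv, rfl⟩
        exact ⟨v, HB_mono (hm hN) hv, rfl⟩)
      (fun N => bod (Q N) (hQ1 N) (hbb N))
    refine ⟨c, fun N => ?_, h5⟩
    exact fr_near (hbb N) (fun v hv => hg v (hQ2 N hv)) rfl (h4 N) A hAr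
  obtain ⟨cL, hL1, hL2⟩ := fam (fun N => UB B (x0 - min N (x0 - x1)) u0) (by
      intro N N' hN
      exact UB_mono B (by
        have : min N (x0 - x1) ≤ min N' (x0 - x1) := min_le_min_right _ hN
        omega) le_rfl)
    (fun N => UB_mono B (Nat.sub_le _ _) le_rfl) (fun N => UB_mono B (by
      have : min N (x0 - x1) ≤ x0 - x1 := min_le_right _ _
      omega) hu)
  obtain ⟨cR, hR1, hR2⟩ := fam (fun N => UB B x0 (u0 + min N (u1 - u0))) (by
      intro N N' hN
      exact UB_mono B le_rfl (by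
        have : min N (u1 - u0) ≤ min N' (u1 - u0) := min_le_min_right _ hN
        omega))
    (fun N => UB_mono B le_rfl (Nat.le_add_right _ _)) (fun N => UB_mono B hx (by
      have : min N (u1 - u0) ≤ u1 - u0 := min_le_right _ _
      omega))
  refine ⟨⟨A, cL, cR⟩, fun N hN => ?_, fun N hN => ?_, hL2, hR2, p, I, hp, hd, hmax, fun i j => rfl⟩
  · have := hL1 N
    simp only [min_eq_left hN] at this
    exact this
  · have := hR1 N
    simp only [min_eq_left hN] at this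
    exact this

end Pool.Agent.Helper92.VS
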